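import Pool.Agent.W257.G7

set_option autoImplicit false

open IntermediateField

namespace Pool.Agent.Results.MP_821da1_nt.ExplicitSplitFamilies

/-- Part 1: let `P(Y,T)` have top form `∏ (Y - ρᵢ T)` with distinct integers `ρᵢ`, let `a` be an
integer beyond an explicit threshold and let `K` be the field generated by the real numbers `β` with
`P(β, a) = 0`. Then the integer points on every plane curve `F = 0` all of whose real slopes of full
degree generate a field meeting `K` in degree at least three satisfy an explicit bound.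
Part 2: explicit bounds for the integer points on `∏ (x - (ρᵢ a + sᵢ) y) + c y^m = R(x,y)`,
`deg R < m`. -/
theorem result :
    (∀ (m d : ℕ) (P : MvPolynomial (Fin 2) ℤ) (ρ : Fin m → ℤ) (a : ℤ) (F : MvPolynomial (Fin 2) ℤ),
      1 ≤ m → 3 ≤ d → Function.Injective ρ → P.totalDegree = m →
      MvPolynomial.homogeneousComponent m P =
        ∏ i, (MvPolynomial.X 0 - MvPolynomial.C (ρ i) * MvPolynomial.X 1) →
      (2 * ∑ n ∈ P.support, (P.coeff n).natAbs) ^
        (10 ^ 5 * (m + 1) ^ 2 * (2 * d) ^ (8 * m.factorial)) ≤ a.natAbs →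
      F.totalDegree = d →
      Irreducible (MvPolynomial.map (Int.castRingHom ℚ) F) →
      Squarefree (MvPolynomial.map (Int.castRingHom ℚ) (MvPolynomial.homogeneousComponent d F)) →
      (∀ t : ℝ, MvPolynomial.aeval ![1, t] (MvPolynomial.homogeneousComponent d F) = 0 →
        Module.finrank ℚ ℚ⟮t⟯ = d → 3 ≤ Module.finrank ℚ ↥(ℚ⟮t⟯ ⊓ IntermediateField.adjoin ℚ
          {β : ℝ | MvPolynomial.aeval ![β, (a : ℝ)] P = 0})) →
      ∀ x y : ℤ, MvPolynomial.eval ![x, y] F = 0 →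
        x.natAbs ≤ (a.natAbs * ((d + 1) * ∑ n ∈ F.support, (F.coeff n).natAbs)) ^
          (10 ^ 10 * (2 * d) ^ (9 * m.factorial + 9)) ∧
        y.natAbs ≤ (a.natAbs * ((d + 1) * ∑ n ∈ F.support, (F.coeff n).natAbs)) ^
          (10 ^ 10 * (2 * d) ^ (9 * m.factorial + 9))) ∧
    (∀ (m : ℕ) (ρ s : Fin m → ℤ) (c a : ℤ) (R : MvPolynomial (Fin 2) ℤ),
      3 ≤ m → Function.Injective ρ → c ≠ 0 →
      (2 * (∏ i, (1 + (ρ i).natAbs + (s i).natAbs) + c.natAbs)) ^
        (10 ^ 5 * (m + 1) ^ 2 * (2 * m) ^ (8 * m.factorial)) ≤ a.natAbs →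
      R.totalDegree < m →
      ∀ x y : ℤ, ∏ i, (x - (ρ i * a + s i) * y) + c * y ^ m = MvPolynomial.eval ![x, y] R →
        x.natAbs ≤ (a.natAbs ^ (m + 2) *
          ((m + 1) * (1 + ∑ n ∈ R.support, (R.coeff n).natAbs))) ^
          (10 ^ 10 * (2 * m) ^ (9 * m.factorial + 9)) ∧
        y.natAbs ≤ (a.natAbs ^ (m + 2) *
          ((m + 1) * (1 + ∑ n ∈ R.support, (R.coeff n).natAbs))) ^
          (10 ^ 10 * (2 * m) ^ (9 * m.factorial + 9))) := by
  refine ⟨?_, ?_⟩
  · intro m d P ρ a F hm hd hρ hPd hP ha hFd hirr hsq hS x y hxy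
    exact Pool.Agent.W257.main_split hm hd hρ hPd hP ha F hFd hirr hsq hS x y hxy
  · intro m ρ s c a R hm hρ hc ha hR x y hxy
    exact Pool.Agent.W257.main_fam hm hρ hc ha R hR x y hxy

end Pool.Agent.Results.MP_821da1_nt.ExplicitSplitFamilies
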